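import Pool.Agent.Mg.F2e2529.G3b853b

namespace Pool.Agent.Results.MP_2e2529_nt.AlmostBounded

/-- The map of the question: `x / 2` for even `x`, and the floor of `4 x / 3` for odd `x`. -/
def i (x : ℕ) : ℕ := if x % 2 = 0 then x / 2 else 4 * x / 3

/-- Almost all orbits (natural density, uniformly in `X`) attain almost bounded values, with a
saving of any power of `log N`. -/
theorem result (α : ℕ) : ∃ C : ℝ, ∀ N : ℕ, 2 ≤ N → ∀ X : ℕ,
    (Set.ncard {x : ℕ | 1 ≤ x ∧ x ≤ X ∧ ∀ k : ℕ, N < i^[k] x} : ℝ) ≤ C * X / Real.log N ^ α := by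
  classical
  obtain ⟨C, hC⟩ := Pool.Agent.MP_2e2529_nt.final i (fun _ => rfl) α
  refine ⟨C, fun N hN X => ?_⟩
  convert hC N hN X using 2
  rw [← Set.ncard_coe_finset]
  congr 1
  ext x
  simp [and_assoc]

end Pool.Agent.Results.MP_2e2529_nt.AlmostBounded
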