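import Pool.Agent.MP_2e2529_nt.Dens.All

namespace Pool.Agent.Results.MP_2e2529_nt.DensityExists

/-- The map of the question: `x / 2` for even `x`, and the floor of `4 x / 3` for odd `x`. -/
def i (x : ℕ) : ℕ := if x % 2 = 0 then x / 2 else 4 * x / 3

/-- Every set that is invariant under the map, up to finitely many exceptions, has a natural
density. -/
theorem result (P : Set ℕ) (N : ℕ) (h : ∀ x : ℕ, N < x → (x ∈ P ↔ i x ∈ P)) :
    ∃ d : ℝ, Filter.Tendsto
      (fun X : ℕ => (Set.ncard {x : ℕ | 1 ≤ x ∧ x ≤ X ∧ x ∈ P} : ℝ) / (X : ℝ))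
      Filter.atTop (nhds d) := by
  classical
  obtain ⟨d, hd⟩ := Pool.Agent.MP_2e2529_nt.Dens.dens_final (P := fun x => x ∈ P) i
    (fun _ => rfl) h
  refine ⟨d, hd.congr fun X => ?_⟩
  congr 2
  rw [← Set.ncard_coe_finset]
  congr 1
  ext x
  simp [and_assoc]

end Pool.Agent.Results.MP_2e2529_nt.DensityExists
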