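import Pool.Agent.Mg.F2e2529.G88c350

namespace Pool.Agent.Results.MP_2e2529_nt.PositiveDensity

/-- The map of the question: `x / 2` for even `x`, and the floor of `4 x / 3` for odd `x`. -/
def i (x : ℕ) : ℕ := if x % 2 = 0 then x / 2 else 4 * x / 3

/-- The integers whose orbit passes through `a` have positive lower natural density whenever `8`
does not divide `a`; for `a = 1` a positive proportion of the integers reach 1. -/
theorem result (a : ℕ) (ha : ¬ 8 ∣ a) : ∃ c : ℝ, 0 < c ∧ ∃ X₀ : ℕ, ∀ X : ℕ, X₀ ≤ X →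
    c * X ≤ (Set.ncard {x : ℕ | 1 ≤ x ∧ x ≤ X ∧ ∃ k : ℕ, i^[k] x = a} : ℝ) := by
  classical
  obtain ⟨c, hc, X₀, h⟩ := Pool.Agent.MP_2e2529_nt.pos_final i (fun _ => rfl) ha
  refine ⟨c, hc, X₀, fun X hX => ?_⟩
  convert h X hX using 2
  rw [← Set.ncard_coe_finset]
  congr 1
  ext x
  simp [and_assoc]

end Pool.Agent.Results.MP_2e2529_nt.PositiveDensity
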